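import Pool.Agent.Helper46.C2.St

/-!
# Project C2 (MP_b3ce06_al): module RL (the commutation rule over a finite ring)
-/

set_option autoImplicit false

namespace Pool.Agent.Helper87.C2

open Pool.Agent.Helper46.C2
open Pool.Agent.Helper43.GD (Fr)

private theorem E_h {L A : Type} [CommRing L] [Group A] (Q : Fr L A) {u : Lˣ} (hu : u ∈ Q.U) (c : L) :
    Q.E c * Q.h u = Q.h u * Q.E (((u⁻¹ : Lˣ) : L) * c) := by
  have h := Q.h_E hu (((u⁻¹ : Lˣ) : L) * c)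
  rw [Units.mul_inv_cancel_left] at h
  rw [← h]; group

theorem hRL (h1 : StCRT) (h2 : Pool.Agent.Helper43.GD.StRR) : StRL := by
  intro L A _ _ Q hfin hI hU a b d hd
  obtain ⟨α, hα⟩ := h1 L hI ![1, -1, b] ![0, a, 1] (by
    intro I hI i
    have hone : (1 : L) ∉ I := fun h => hI.ne_top ((Ideal.eq_top_iff_one I).2 h)
    fin_cases i
    · exact Or.inl hone
    · refine Or.inl fun h => hone ?_
      have := I.neg_mem h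
      simpa using this
    · exact Or.inr hone)
  obtain ⟨κ, hκ⟩ : IsUnit α := by simpa using hα 0
  obtain ⟨a₂, ha₂⟩ : IsUnit (-α + a) := by simpa using hα 1
  obtain ⟨d₁, hd₁'⟩ : IsUnit (b * α + 1) := by simpa using hα 2
  have ha₂e : (a₂ : L) = a - κ := by rw [ha₂, hκ]; ring
  have hd₁ : (d₁ : L) = 1 + κ * b := by rw [hd₁', hκ]; ring
  have hr1 := h2 L A Q κ d₁ b (hU _) (hU _) hd₁
  have hdd : (((d₁⁻¹ * d : Lˣ)) : L) = 1 + a₂ * (((d₁⁻¹ : Lˣ) : L) * b) := by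
    have h5 : (d : L) = d₁ + a₂ * b := by rw [hd, hd₁, ha₂e]; ring
    rw [Units.val_mul, h5, mul_add, Units.inv_mul]
    ring
  have hr2 := h2 L A Q a₂ (d₁⁻¹ * d) (((d₁⁻¹ : Lˣ) : L) * b) (hU _) (hU _) hdd
  have e1 : ((((d₁⁻¹ * d)⁻¹ : Lˣ)) : L) = (d₁ : L) * ((d⁻¹ : Lˣ) : L) := by
    rw [mul_inv, inv_inv, Units.val_mul]
  have e2 : (d₁ : L) * ((d⁻¹ : Lˣ) : L) * (((d₁⁻¹ : Lˣ) : L) * b) = ((d⁻¹ : Lˣ) : L) * b := by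
    have := d₁.mul_inv
    linear_combination (((d⁻¹ : Lˣ) : L) * b) * this
  rw [e1, e2] at hr2
  have ea : a = (a₂ : L) + κ := by rw [ha₂e]; ring
  have hh : Q.h d = Q.h (d₁⁻¹ * d) * Q.h d₁ := by
    rw [← Q.h_mul (hU _) (hU _)]
    congr 1
    rw [mul_comm, mul_inv_cancel_left]
  have hc : Q.h d₁ * Q.h (d₁⁻¹ * d) = Q.h (d₁⁻¹ * d) * Q.h d₁ := Q.h_comm (hU _) (hU _)
  have e3 : Q.E ((d₁ : L) * ((d⁻¹ : Lˣ) : L) * a₂) * (Q.h d₁ * Q.h d₁)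
      = (Q.h d₁ * Q.h d₁) * Q.E (((d₁⁻¹ : Lˣ) : L) * ((d⁻¹ : Lˣ) : L) * a₂) := by
    rw [← mul_assoc, E_h Q (hU d₁), mul_assoc, E_h Q (hU d₁), ← mul_assoc]
    congr 2
    have := d₁.inv_mul
    linear_combination (((d₁⁻¹ : Lˣ) : L) * ((d⁻¹ : Lˣ) : L) * a₂) * this
  have e4 : Q.E (((d₁⁻¹ : Lˣ) : L) * ((d⁻¹ : Lˣ) : L) * a₂) * Q.E (((d₁⁻¹ : Lˣ) : L) * κ)
      = Q.E (((d⁻¹ : Lˣ) : L) * a) := by
    rw [← Q.Eadd]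
    congr 1
    have h6 := d₁.inv_mul
    have h7 := d.inv_mul
    have h8 : (a₂ : L) = a - κ := ha₂e
    rw [h8]
    have h9 : ((d₁⁻¹ : Lˣ) : L) * (1 + κ * b) = 1 := by rw [← hd₁]; exact h6
    have h10 : ((d⁻¹ : Lˣ) : L) * (1 + a * b) = 1 := by rw [← hd]; exact h7
    linear_combination (-((d₁⁻¹ : Lˣ) : L) * κ) * h10 + (((d⁻¹ : Lˣ) : L) * a) * h9
  calc Q.E a * Q.F b = Q.E (a₂ : L) * (Q.E (κ : L) * Q.F b) := by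
        rw [← mul_assoc, ← Q.Eadd, ← ea]
    _ = (Q.E (a₂ : L) * Q.F (((d₁⁻¹ : Lˣ) : L) * b)) * (Q.h d₁ * Q.h d₁) *
          Q.E (((d₁⁻¹ : Lˣ) : L) * κ) := by
        rw [hr1]; simp only [mul_assoc]
    _ = Q.F (((d⁻¹ : Lˣ) : L) * b) * (Q.h (d₁⁻¹ * d) * Q.h (d₁⁻¹ * d)) *
          (Q.E ((d₁ : L) * ((d⁻¹ : Lˣ) : L) * a₂) * (Q.h d₁ * Q.h d₁)) *
          Q.E (((d₁⁻¹ : Lˣ) : L) * κ) := by
        rw [hr2]; simp only [mul_assoc]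
    _ = Q.F (((d⁻¹ : Lˣ) : L) * b) * (Q.h (d₁⁻¹ * d) * (Q.h (d₁⁻¹ * d) * Q.h d₁) * Q.h d₁) *
          (Q.E (((d₁⁻¹ : Lˣ) : L) * ((d⁻¹ : Lˣ) : L) * a₂) * Q.E (((d₁⁻¹ : Lˣ) : L) * κ)) := by
        rw [e3]; simp only [mul_assoc]
    _ = Q.F (((d⁻¹ : Lˣ) : L) * b) * (Q.h d * Q.h d) * Q.E (((d⁻¹ : Lˣ) : L) * a) := by
        rw [e4, ← hc, hh]; simp only [mul_assoc]

end Pool.Agent.Helper87.C2
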